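import Pool.Agent.KACG.Slopes

open scoped ComplexConjugate ContDiff

namespace Pool.Agent.KACG.H96

open MeasureTheory

theorem mass_pos' {L : ℝ} (hL : 0 < L) {u : ℝ → ℂ} (h : TP L u) (hne : ∃ s, u s ≠ 0) :
    0 < mass L u := by
  obtain ⟨s₀, hs₀⟩ := hne
  have hper : Function.Periodic (fun s => ‖u s‖ ^ 2) L := by
    intro s
    simp only [h.2 s, norm_mul, Complex.norm_I, one_mul]
  have h1 : mass L u = ∫ s in s₀..(s₀ + L), ‖u s‖ ^ 2 := by
    unfold mass
    have := hper.intervalIntegral_add_eq 0 s₀
    rw [zero_add] at this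
    exact this
  rw [h1]
  have hc : Continuous (fun s => ‖u s‖ ^ 2) := by
    have := h.1.continuous
    fun_prop
  apply intervalIntegral.integral_pos (by linarith) hc.continuousOn
  · intro s _
    positivity
  · refine ⟨s₀, ⟨le_refl _, by linarith⟩, ?_⟩
    have : 0 < ‖u s₀‖ := norm_pos_iff.2 hs₀
    positivity

theorem tp_sum {L : ℝ} (Z : Finset ℝ) (u : ℝ → ℝ → ℂ) (hu : ∀ z ∈ Z, TP L (u z)) (c : ℝ → ℂ) :
    TP L (fun s => ∑ z ∈ Z, c z * u z s) := by
  constructor
  · apply ContDiff.sum
    intro z hz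
    exact contDiff_const.mul (hu z hz).1
  · intro s
    simp only []
    rw [Finset.mul_sum]
    apply Finset.sum_congr rfl
    intro z hz
    rw [(hu z hz).2 s]
    ring

theorem low (hZ : ZerStmt) (hO : OrtStmt) : LowStmt := by
  intro L V E a ι _ f hL hV hP hf hE Z hZz
  by_contra hcon
  push Not at hcon
  have hex : ∀ z ∈ Z, ∃ u : ℝ → ℂ, TP L u ∧ (∃ s, u s ≠ 0) ∧ IsSol V (z : ℂ) u := fun z hz =>
    hZ L V z hL hV hP (hZz z hz).2
  choose! u hu using hex
  -- linear equations
  let T : (Z → ℂ) →ₗ[ℂ] (ι → ℂ) :=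
    { toFun := fun c j => ∑ z : Z, c z * ∫ s in a..(a + L), u z s * f j s
      map_add' := by
        intro c d
        funext j
        simp only [Pi.add_apply, add_mul, Finset.sum_add_distrib]
      map_smul' := by
        intro r c
        funext j
        simp only [Pi.smul_apply, smul_eq_mul, RingHom.id_apply, Finset.mul_sum, mul_assoc] }
  have hninj : ¬ Function.Injective T := by
    intro hinj
    have h1 := LinearMap.finrank_le_finrank_of_injective hinj
    rw [Module.finrank_fintype_fun_eq_card, Module.finrank_fintype_fun_eq_card,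
      Fintype.card_coe] at h1
    omega
  have hker : ∃ c : Z → ℂ, c ≠ 0 ∧ T c = 0 := by
    by_contra hno
    push Not at hno
    apply hninj
    rw [injective_iff_map_eq_zero]
    intro c hc
    by_contra hc0
    exact hno c hc0 hc
  obtain ⟨c, hc0, hTc⟩ := hker
  let c' : ℝ → ℂ := fun z => if h : z ∈ Z then c ⟨z, h⟩ else 0
  have hc' : ∀ z : Z, c' z = c z := by
    intro z
    simp only [c', z.2, dif_pos]
  have hTP := tp_sum Z u (fun z hz => (hu z hz).1) c'
  have horth : ∀ j, ∫ s in a..(a + L), (∑ z ∈ Z, c' z * u z s) * f j s = 0 := by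
    intro j
    have e1 : ∀ s, (∑ z ∈ Z, c' z * u z s) * f j s = ∑ z ∈ Z, c' z * (u z s * f j s) := by
      intro s
      rw [Finset.sum_mul]
      apply Finset.sum_congr rfl
      intro z _
      ring
    simp only [e1]
    rw [intervalIntegral.integral_finsetSum]
    · have h2 := congrFun hTc j
      have h3 : T c j = ∑ z : Z, c z * ∫ s in a..(a + L), u z s * f j s := rfl
      rw [h3] at h2
      rw [← Finset.sum_coe_sort Z]
      have h4 : ∀ z : Z, ∫ s in a..(a + L), c' z * (u z s * f j s) =
          c z * ∫ s in a..(a + L), u z s * f j s := by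
        intro z
        rw [intervalIntegral.integral_const_mul, hc' z]
      simp only [h4]
      exact h2
    · intro z hz
      have := (hu z hz).1.1.continuous
      have := hf j
      apply Continuous.intervalIntegrable
      fun_prop
  have hle := hE _ hTP horth
  obtain ⟨hm, he⟩ := hO L V hL hV hP Z u (fun z hz => ⟨(hu z hz).1, (hu z hz).2.2⟩) c'
  rw [hm, he, Finset.mul_sum] at hle
  have hlt : ∑ z ∈ Z, z * (‖c' z‖ ^ 2 * mass L (u z)) <
      ∑ z ∈ Z, E * (‖c' z‖ ^ 2 * mass L (u z)) := by
    apply Finset.sum_lt_sum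
    · intro z hz
      have h1 := (hZz z hz).1
      have h2 := mass_pos' hL (hu z hz).1 (hu z hz).2.1
      have h3 : 0 ≤ ‖c' z‖ ^ 2 * mass L (u z) := by positivity
      exact mul_le_mul_of_nonneg_right h1.le h3
    · have : ∃ z : Z, c z ≠ 0 := by
        by_contra hno
        push Not at hno
        exact hc0 (funext hno)
      obtain ⟨z, hz⟩ := this
      refine ⟨z, z.2, ?_⟩
      have h1 := (hZz z z.2).1
      have h2 := mass_pos' hL (hu z z.2).1 (hu z z.2).2.1
      have h4 : 0 < ‖c' z‖ := by
        rw [hc' z]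
        exact norm_pos_iff.2 hz
      have h3 : 0 < ‖c' z‖ ^ 2 * mass L (u z) := by positivity
      exact mul_lt_mul_of_pos_right h1 h3
  exact absurd hle (not_le.2 hlt)

end Pool.Agent.KACG.H96
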