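import Pool.Agent.KACG.Slopes

open scoped ComplexConjugate ContDiff

namespace Pool.Agent.KACG.H96

open MeasureTheory

/-- boundary values of the derivative -/
theorem tp_deriv {L : ℝ} {u : ℝ → ℂ} (h : TP L u) (s : ℝ) :
    deriv u (s + L) = Complex.I * deriv u s := by
  have h1 : deriv (fun t => u (t + L)) s = deriv u (s + L) := deriv_comp_add_const u L s
  have h2 : (fun t => u (t + L)) = fun t => Complex.I * u t := funext h.2
  rw [← h1, h2, deriv_const_mul_field]

theorem tp_cont {L : ℝ} {u : ℝ → ℂ} (h : TP L u) : Continuous u := h.1.continuous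

theorem tp_contd {L : ℝ} {u : ℝ → ℂ} (h : TP L u) : Continuous (deriv u) :=
  h.1.continuous_deriv (by simp)

/-- the energy product of two eigenfunctions -/
theorem ibp {L : ℝ} {V : ℝ → ℝ} (hV : Continuous V) {z : ℂ} {u v : ℝ → ℂ} (hu : TP L u)
    (hv : TP L v) (hs : IsSol V z u) :
    ∫ s in (0 : ℝ)..L, (deriv u s * conj (deriv v s) + ((V s : ℝ) : ℂ) * (u s * conj (v s)))
      = z * ∫ s in (0 : ℝ)..L, u s * conj (v s) := by
  have cu := tp_cont hu
  have cv := tp_cont hv
  have cu' := tp_contd hu
  have cv' := tp_contd hv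
  have hvd : ∀ s, HasDerivAt v (deriv v s) s := fun s =>
    ((hv.1.differentiable (by simp)) s).hasDerivAt
  have hB : ∀ s, HasDerivAt (fun s => deriv u s * conj (v s))
      ((((V s : ℝ) : ℂ) - z) * u s * conj (v s) + deriv u s * conj (deriv v s)) s := by
    intro s
    have h1 := hs.2 s
    have h2 : HasDerivAt (fun s => conj (v s)) (conj (deriv v s)) s :=
      (hvd s).star
    exact h1.mul h2
  have hint : ∫ s in (0 : ℝ)..L,
      ((((V s : ℝ) : ℂ) - z) * u s * conj (v s) + deriv u s * conj (deriv v s)) =
      deriv u L * conj (v L) - deriv u 0 * conj (v 0) := by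
    apply intervalIntegral.integral_eq_sub_of_hasDerivAt (fun s _ => hB s)
    apply Continuous.intervalIntegrable
    fun_prop
  have hb : deriv u L * conj (v L) = deriv u 0 * conj (v 0) := by
    have e1 := tp_deriv hu 0
    have e2 := hv.2 0
    rw [zero_add] at e1 e2
    rw [e1, e2, map_mul, Complex.conj_I]
    linear_combination (-(deriv u 0 * conj (v 0))) * Complex.I_mul_I
  rw [hb, sub_self] at hint
  have hsplit : ∫ s in (0 : ℝ)..L,
      ((((V s : ℝ) : ℂ) - z) * u s * conj (v s) + deriv u s * conj (deriv v s)) =
      (∫ s in (0 : ℝ)..L,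
        (deriv u s * conj (deriv v s) + ((V s : ℝ) : ℂ) * (u s * conj (v s)))) -
      z * ∫ s in (0 : ℝ)..L, u s * conj (v s) := by
    rw [← intervalIntegral.integral_const_mul, ← intervalIntegral.integral_sub]
    · apply intervalIntegral.integral_congr
      intro s _
      ring
    · apply Continuous.intervalIntegrable
      fun_prop
    · apply Continuous.intervalIntegrable
      fun_prop
  rw [hsplit] at hint
  exact sub_eq_zero.1 hint

theorem cj {L : ℝ} {f : ℝ → ℂ} :
    ∫ s in (0 : ℝ)..L, conj (f s) = conj (∫ s in (0 : ℝ)..L, f s) := by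
  exact _root_.intervalIntegral.intervalIntegral_conj

/-- orthogonality -/
theorem orth {L : ℝ} {V : ℝ → ℝ} (hV : Continuous V) {z w : ℝ} {u v : ℝ → ℂ} (hu : TP L u)
    (hv : TP L v) (hs : IsSol V (z : ℂ) u) (ht : IsSol V (w : ℂ) v) (hzw : z ≠ w) :
    ∫ s in (0 : ℝ)..L, u s * conj (v s) = 0 := by
  have h1 := ibp hV hu hv hs
  have h2 := ibp hV hv hu ht
  have h3 : conj (∫ s in (0 : ℝ)..L,
      (deriv v s * conj (deriv u s) + ((V s : ℝ) : ℂ) * (v s * conj (u s)))) =
      ∫ s in (0 : ℝ)..L, (deriv u s * conj (deriv v s) + ((V s : ℝ) : ℂ) * (u s * conj (v s))) := by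
    rw [← cj]
    apply intervalIntegral.integral_congr
    intro s _
    simp only [map_add, map_mul, Complex.conj_conj, Complex.conj_ofReal]
    ring
  have h4 : conj (∫ s in (0 : ℝ)..L, v s * conj (u s)) = ∫ s in (0 : ℝ)..L, u s * conj (v s) := by
    rw [← cj]
    apply intervalIntegral.integral_congr
    intro s _
    simp only [map_mul, Complex.conj_conj]
    ring
  rw [h2, map_mul, h4, h1, Complex.conj_ofReal] at h3
  have h5 : ((w : ℂ) - z) * ∫ s in (0 : ℝ)..L, u s * conj (v s) = 0 := by
    rw [sub_mul, h3, sub_self]
  rcases mul_eq_zero.1 h5 with h | h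
  · exfalso
    apply hzw
    have : (w : ℂ) = z := sub_eq_zero.1 h
    exact_mod_cast this.symm
  · exact h

theorem nsq (a : ℂ) : ((‖a‖ ^ 2 : ℝ) : ℂ) = a * conj a := by
  rw [Complex.mul_conj, Complex.normSq_eq_norm_sq]

theorem mass_eq {L : ℝ} {u : ℝ → ℂ} :
    ((mass L u : ℝ) : ℂ) = ∫ s in (0 : ℝ)..L, u s * conj (u s) := by
  unfold mass
  rw [← intervalIntegral.integral_ofReal]
  apply intervalIntegral.integral_congr
  intro s _
  exact nsq (u s)

theorem enr_eq {L : ℝ} {V : ℝ → ℝ} {u : ℝ → ℂ} :
    ((enr L V u : ℝ) : ℂ) = ∫ s in (0 : ℝ)..L,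
      (deriv u s * conj (deriv u s) + ((V s : ℝ) : ℂ) * (u s * conj (u s))) := by
  unfold enr
  rw [← intervalIntegral.integral_ofReal]
  apply intervalIntegral.integral_congr
  intro s _
  simp only [Complex.ofReal_add, Complex.ofReal_mul]
  rw [nsq, nsq]

theorem ort : OrtStmt := by
  intro L V hL hV hP Z u hu c
  have hVc : Continuous V := hV.continuous
  have cu : ∀ z ∈ Z, Continuous (u z) := fun z hz => tp_cont (hu z hz).1
  have cu' : ∀ z ∈ Z, Continuous (deriv (u z)) := fun z hz => tp_contd (hu z hz).1
  have hI : ∀ z ∈ Z, ∀ w ∈ Z, ∫ s in (0 : ℝ)..L, u z s * conj (u w s) =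
      if z = w then ((mass L (u z) : ℝ) : ℂ) else 0 := by
    intro z hz w hw
    by_cases h : z = w
    · subst h
      rw [if_pos rfl, mass_eq]
    · rw [if_neg h]
      exact orth hVc (hu z hz).1 (hu w hw).1 (hu z hz).2 (hu w hw).2 h
  have hA : ∀ z ∈ Z, ∀ w ∈ Z, ∫ s in (0 : ℝ)..L,
      (deriv (u z) s * conj (deriv (u w) s) + ((V s : ℝ) : ℂ) * (u z s * conj (u w s))) =
      if z = w then (z : ℂ) * ((mass L (u z) : ℝ) : ℂ) else 0 := by
    intro z hz w hw
    rw [ibp hVc (hu z hz).1 (hu w hw).1 (hu z hz).2, hI z hz w hw]
    by_cases h : z = w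
    · rw [if_pos h, if_pos h]
    · rw [if_neg h, if_neg h, mul_zero]
  have hd : ∀ s, deriv (fun s => ∑ z ∈ Z, c z * u z s) s = ∑ z ∈ Z, c z * deriv (u z) s := by
    intro s
    rw [deriv_fun_sum]
    · apply Finset.sum_congr rfl
      intro z hz
      rw [deriv_const_mul_field]
    · intro z hz
      exact ((((hu z hz).1.1.differentiable (by simp)) s).const_mul (c z))
  constructor
  · have key : ((mass L (fun s => ∑ z ∈ Z, c z * u z s) : ℝ) : ℂ) =
        ((∑ z ∈ Z, ‖c z‖ ^ 2 * mass L (u z) : ℝ) : ℂ) := by
      rw [mass_eq]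
      have e1 : ∀ s, (∑ z ∈ Z, c z * u z s) * conj (∑ z ∈ Z, c z * u z s) =
          ∑ z ∈ Z, ∑ w ∈ Z, (c z * conj (c w)) * (u z s * conj (u w s)) := by
        intro s
        rw [map_sum, Finset.sum_mul_sum]
        apply Finset.sum_congr rfl
        intro z _
        apply Finset.sum_congr rfl
        intro w _
        rw [map_mul]
        ring
      simp only [e1]
      rw [intervalIntegral.integral_finsetSum]
      · push_cast
        apply Finset.sum_congr rfl
        intro z hz
        rw [intervalIntegral.integral_finsetSum]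
        · rw [Finset.sum_eq_single z]
          · rw [intervalIntegral.integral_const_mul, hI z hz z hz, if_pos rfl]
            have := nsq (c z)
            push_cast at this
            rw [this]
          · intro w hw hwz
            rw [intervalIntegral.integral_const_mul, hI z hz w hw, if_neg (Ne.symm hwz), mul_zero]
          · intro h
            exact absurd hz h
        · intro w hw
          have := cu z hz
          have := cu w hw
          apply Continuous.intervalIntegrable
          fun_prop
      · intro z hz
        apply Continuous.intervalIntegrable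
        apply continuous_finsetSum
        intro w hw
        have := cu z hz
        have := cu w hw
        fun_prop
    exact_mod_cast key
  · have key : ((enr L V (fun s => ∑ z ∈ Z, c z * u z s) : ℝ) : ℂ) =
        ((∑ z ∈ Z, z * (‖c z‖ ^ 2 * mass L (u z)) : ℝ) : ℂ) := by
      rw [enr_eq]
      have e1 : ∀ s, (deriv (fun s => ∑ z ∈ Z, c z * u z s) s *
          conj (deriv (fun s => ∑ z ∈ Z, c z * u z s) s) +
          ((V s : ℝ) : ℂ) * ((∑ z ∈ Z, c z * u z s) * conj (∑ z ∈ Z, c z * u z s))) =
          ∑ z ∈ Z, ∑ w ∈ Z, (c z * conj (c w)) * (deriv (u z) s * conj (deriv (u w) s) +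
            ((V s : ℝ) : ℂ) * (u z s * conj (u w s))) := by
        intro s
        rw [hd s, map_sum, map_sum, Finset.sum_mul_sum, Finset.sum_mul_sum, Finset.mul_sum,
          ← Finset.sum_add_distrib]
        apply Finset.sum_congr rfl
        intro z _
        rw [Finset.mul_sum, ← Finset.sum_add_distrib]
        apply Finset.sum_congr rfl
        intro w _
        rw [map_mul, map_mul]
        ring
      simp only [e1]
      rw [intervalIntegral.integral_finsetSum]
      · push_cast
        apply Finset.sum_congr rfl
        intro z hz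
        rw [intervalIntegral.integral_finsetSum]
        · rw [Finset.sum_eq_single z]
          · rw [intervalIntegral.integral_const_mul, hA z hz z hz, if_pos rfl]
            have := nsq (c z)
            push_cast at this
            rw [this]
            ring
          · intro w hw hwz
            rw [intervalIntegral.integral_const_mul, hA z hz w hw, if_neg (Ne.symm hwz), mul_zero]
          · intro h
            exact absurd hz h
        · intro w hw
          have := cu z hz
          have := cu w hw
          have := cu' z hz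
          have := cu' w hw
          apply Continuous.intervalIntegrable
          fun_prop
      · intro z hz
        apply Continuous.intervalIntegrable
        apply continuous_finsetSum
        intro w hw
        have := cu z hz
        have := cu w hw
        have := cu' z hz
        have := cu' w hw
        fun_prop
    exact_mod_cast key

end Pool.Agent.KACG.H96
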